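import Mathlib

/-!
# Rows: the span of the Taylor expansions along a line (N4, piece P2)

`L` a field of characteristic zero, `D` a derivation of `L`, `a l n` the Taylor coefficients of
`f l` (`a l 0 = f l`, `(n+1) a l (n+1) = D (a l n)`). If the `f l`, `l < N`, are linearly
independent over the constants of `D`, then the first `N` coefficients of the `L`-combinations
`∑ c l * a l` are arbitrary.
-/

set_option autoImplicit false

namespace Pool.Agent.TH978.N4

section base

variable {C L : Type*} [CommRing C] [Field L] [CharZero L] [Algebra C L]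

/-- a nonzero space of vectors stable under a derivation contains a nonzero constant vector -/
theorem exists_const (D : Derivation C L L) {ι : Type*} [Fintype ι] (V : Submodule L (ι → L))
    (hV : ∀ c ∈ V, (fun l => D (c l)) ∈ V) (hne : ∃ c ∈ V, c ≠ 0) :
    ∃ c ∈ V, c ≠ 0 ∧ ∀ l, D (c l) = 0 := by
  classical
  -- a vector of minimal support
  have hex : ∃ n : ℕ, ∃ c ∈ V, c ≠ 0 ∧ (Finset.univ.filter fun l => c l ≠ 0).card = n := by
    obtain ⟨c, hc, hc0⟩ := hne
    exact ⟨_, c, hc, hc0, rfl⟩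
  obtain ⟨c, hc, hc0, hcn⟩ := Nat.find_spec hex
  have hmin : ∀ c' ∈ V, c' ≠ 0 → Nat.find hex ≤ (Finset.univ.filter fun l => c' l ≠ 0).card :=
    fun c' h1 h2 => Nat.find_min' hex ⟨c', h1, h2, rfl⟩
  obtain ⟨l₀, hl₀⟩ : ∃ l, c l ≠ 0 := by
    by_contra h
    push Not at h
    exact hc0 (funext h)
  set c' : ι → L := (c l₀)⁻¹ • c with hc'
  have hc'V : c' ∈ V := V.smul_mem _ hc
  have hc'1 : c' l₀ = 1 := by
    rw [hc', Pi.smul_apply, smul_eq_mul, inv_mul_cancel₀ hl₀]
  have hsupp : ∀ l, c' l ≠ 0 ↔ c l ≠ 0 := by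
    intro l
    rw [hc', Pi.smul_apply, smul_eq_mul]
    exact ⟨fun h h0 => h (by rw [h0, mul_zero]), fun h => mul_ne_zero (inv_ne_zero hl₀) h⟩
  refine ⟨c', hc'V, fun h => ?_, ?_⟩
  · have := congrFun h l₀
    rw [hc'1] at this
    exact one_ne_zero this
  by_contra hno
  push Not at hno
  obtain ⟨l₁, hl₁⟩ := hno
  have h1 := hmin _ (hV c' hc'V) (fun h => hl₁ (congrFun h l₁))
  have h2 : (Finset.univ.filter fun l => D (c' l) ≠ 0) ⊂ Finset.univ.filter fun l => c l ≠ 0 := by
    rw [Finset.ssubset_iff_of_subset]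
    · refine ⟨l₀, by simp [hl₀], ?_⟩
      simp [hc'1]
    · intro l hl
      simp only [Finset.mem_filter, Finset.mem_univ, true_and] at hl ⊢
      intro h0
      have : c' l = 0 := by
        by_contra h
        exact (hsupp l).1 h h0
      rw [this, map_zero] at hl
      exact hl rfl
  have h3 := Finset.card_lt_card h2
  omega

/-- **The first `N` Taylor coefficients determine the combination.** -/
theorem coeff_inj (D : Derivation C L L) {N : ℕ} {f : Fin N → L} {a : Fin N → ℕ → L}
    (hf : ∀ c : Fin N → L, (∀ l, D (c l) = 0) → ∑ l, c l * f l = 0 → c = 0)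
    (h0 : ∀ l, a l 0 = f l) (hD : ∀ l (n : ℕ), ((n : L) + 1) * a l (n + 1) = D (a l n))
    {c : Fin N → L} (hc : ∀ n < N, ∑ l, c l * a l n = 0) : c = 0 := by
  classical
  let φ : ℕ → (Fin N → L) →ₗ[L] L := fun n =>
    { toFun := fun c => ∑ l, c l * a l n
      map_add' := fun x y => by simp [add_mul, Finset.sum_add_distrib]
      map_smul' := fun r x => by simp [Finset.mul_sum, mul_assoc] }
  let V : ℕ → Submodule L (Fin N → L) := fun m => ⨅ n ∈ Finset.range m, LinearMap.ker (φ n)
  have hmem : ∀ m c, c ∈ V m ↔ ∀ n < m, ∑ l, c l * a l n = 0 := by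
    intro m c
    simp only [V, Submodule.mem_iInf, Finset.mem_range, LinearMap.mem_ker]
    rfl
  -- the derivation lowers the order by one
  have hder : ∀ m c, c ∈ V (m + 1) → (fun l => D (c l)) ∈ V m := by
    intro m c hc
    rw [hmem] at hc ⊢
    intro n hn
    have h1 := hc n (by omega)
    have h2 := hc (n + 1) (by omega)
    have h3 : D (∑ l, c l * a l n) = 0 := by rw [h1, map_zero]
    rw [map_sum] at h3
    have h4 : ∑ l, (c l * (((n : L) + 1) * a l (n + 1)) + D (c l) * a l n) = 0 := by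
      rw [← h3]
      refine Finset.sum_congr rfl fun l _ => ?_
      rw [hD, D.leibniz, smul_eq_mul, smul_eq_mul]
      ring
    rw [Finset.sum_add_distrib] at h4
    have h5 : ∑ l, c l * (((n : L) + 1) * a l (n + 1)) = 0 := by
      have : ∑ l, c l * (((n : L) + 1) * a l (n + 1)) = ((n : L) + 1) * ∑ l, c l * a l (n + 1) := by
        rw [Finset.mul_sum]
        exact Finset.sum_congr rfl fun l _ => by ring
      rw [this, h2, mul_zero]
    rw [h5, zero_add] at h4
    exact h4
  have hanti : ∀ m, V (m + 1) ≤ V m := fun m c hc =>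
    (hmem m c).2 fun n hn => (hmem _ c).1 hc n (by omega)
  -- strictly decreasing until zero
  have hlt : ∀ m, V m ≠ ⊥ → V (m + 1) < V m := by
    intro m hm
    refine lt_of_le_of_ne (hanti m) fun heq => hm ?_
    by_contra hbot
    obtain ⟨c, hcV, hc0⟩ := (Submodule.ne_bot_iff _).1 hbot
    rw [← heq] at hcV
    obtain ⟨c', hc'V, hc'0, hc'D⟩ := exists_const D (V (m + 1)) (fun c hc => by
      have := hder m c hc
      rw [← heq] at this
      exact this) ⟨c, hcV, hc0⟩
    refine hc'0 (hf c' hc'D ?_)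
    have := (hmem _ _).1 hc'V 0 (by omega)
    simpa [h0] using this
  have hdim : ∀ m, Module.finrank L (V m) ≤ N - m := by
    intro m
    induction m with
    | zero =>
      have := Submodule.finrank_le (V 0)
      simpa using this
    | succ m ih =>
      by_cases hm : V m = ⊥
      · have h1 : V (m + 1) = ⊥ := le_bot_iff.1 (hm ▸ hanti m)
        rw [h1, finrank_bot]
        exact Nat.zero_le _
      · have := Submodule.finrank_lt_finrank_of_lt (hlt m hm)
        omega
  have hz : V N = ⊥ := by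
    rw [← Submodule.finrank_eq_zero (R := L)]
    have := hdim N
    omega
  have : c ∈ V N := (hmem N c).2 hc
  rw [hz, Submodule.mem_bot] at this
  exact this

/-- **Every row is full**: the first `N` coefficients can be prescribed. -/
theorem exists_coeff (D : Derivation C L L) {N : ℕ} {f : Fin N → L} {a : Fin N → ℕ → L}
    (hf : ∀ c : Fin N → L, (∀ l, D (c l) = 0) → ∑ l, c l * f l = 0 → c = 0)
    (h0 : ∀ l, a l 0 = f l) (hD : ∀ l (n : ℕ), ((n : L) + 1) * a l (n + 1) = D (a l n))
    (v : Fin N → L) : ∃ c : Fin N → L, ∀ n : Fin N, ∑ l, c l * a l n = v n := by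
  let Φ : (Fin N → L) →ₗ[L] (Fin N → L) :=
    { toFun := fun c n => ∑ l, c l * a l n
      map_add' := fun x y => by funext n; simp [add_mul, Finset.sum_add_distrib]
      map_smul' := fun r x => by funext n; simp [Finset.mul_sum, mul_assoc] }
  have hinj : Function.Injective Φ := by
    rw [← LinearMap.ker_eq_bot, LinearMap.ker_eq_bot']
    intro c hc
    exact coeff_inj D hf h0 hD fun n hn => congrFun hc ⟨n, hn⟩
  obtain ⟨c, hc⟩ := LinearMap.injective_iff_surjective.1 hinj v
  exact ⟨c, fun n => congrFun hc n⟩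

end base

section series

open PowerSeries

variable {C L κ : Type*} [Field C] [Field L] [CharZero L] [Algebra C L] [Field κ] [Algebra κ L]
  [Algebra C κ] [IsScalarTower C κ L]

theorem finite_span (R : Submodule C L) [Module.Finite C R] :
    Module.Finite κ (Submodule.span κ (R : Set L)) := by
  obtain ⟨s, hs⟩ := (Module.Finite.iff_fg (N := R)).1 inferInstance
  have h1 : Submodule.span κ (R : Set L) = Submodule.span κ (s : Set L) := by
    rw [← hs]
    exact Submodule.span_span_of_tower C κ (s : Set L)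
  rw [h1]
  exact Module.Finite.span_of_finite κ s.finite_toSet

/-- **Rows.** `N` the number of elements of `R` independent over the constants `κ` of the
derivation `D`, `ρ` the Taylor homomorphism of `D`. The first `N` coefficients of the `L`-span of
`ρ R` are arbitrary. -/
theorem rows (D : Derivation C L L) (hκ : ∀ z, D z = 0 → z ∈ (algebraMap κ L).range)
    {ρ : L → PowerSeries L} (hρ0 : ∀ z, coeff 0 (ρ z) = z)
    (hρD : ∀ z (n : ℕ), ((n : L) + 1) * coeff (n + 1) (ρ z) = D (coeff n (ρ z)))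
    (R : Submodule C L) [Module.Finite C R] :
    ∃ f : Fin (Module.finrank κ (Submodule.span κ (R : Set L))) → L, (∀ l, f l ∈ R) ∧
      ∀ v : Fin (Module.finrank κ (Submodule.span κ (R : Set L))) → L,
        ∃ c : Fin (Module.finrank κ (Submodule.span κ (R : Set L))) → L,
          ∀ n : Fin (Module.finrank κ (Submodule.span κ (R : Set L))),
            coeff (n : ℕ) (∑ l, PowerSeries.C (c l) * ρ (f l)) = v n := by
  have := finite_span (κ := κ) R
  obtain ⟨f, hfR, -, hfi⟩ := Submodule.exists_fun_fin_finrank_span_eq κ (R : Set L)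
  refine ⟨f, hfR, fun v => ?_⟩
  obtain ⟨c, hc⟩ := exists_coeff D (f := f) (a := fun l n => coeff n (ρ (f l))) (fun c hc h => by
    choose e he using fun l => hκ (c l) (hc l)
    rw [Fintype.linearIndependent_iff] at hfi
    funext l
    rw [← he l, hfi e (by
      rw [← h]
      refine Finset.sum_congr rfl fun l _ => ?_
      rw [Algebra.smul_def, he l]) l, map_zero]
    rfl) (fun l => hρ0 _) (fun l n => hρD _ _) v
  refine ⟨c, fun n => ?_⟩
  rw [map_sum, ← hc n]
  exact Finset.sum_congr rfl fun l _ => by rw [coeff_C_mul]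

/-- **The orders of the row are all numbers `i < N`.** -/
theorem rows_lead (D : Derivation C L L) (hκ : ∀ z, D z = 0 → z ∈ (algebraMap κ L).range)
    {ρ : L → PowerSeries L} (hρ0 : ∀ z, coeff 0 (ρ z) = z)
    (hρD : ∀ z (n : ℕ), ((n : L) + 1) * coeff (n + 1) (ρ z) = D (coeff n (ρ z)))
    (R : Submodule C L) [Module.Finite C R] {i : ℕ}
    (hi : i < Module.finrank κ (Submodule.span κ (R : Set L))) :
    ∃ G ∈ Submodule.span L (ρ '' (R : Set L)),
      (∀ n < Module.finrank κ (Submodule.span κ (R : Set L)),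
        coeff n G = if n = i then 1 else 0) ∧
      ∃ r : PowerSeries L, G = X ^ i * (1 + X * r) := by
  obtain ⟨f, hfR, h⟩ := rows D hκ hρ0 hρD R
  obtain ⟨c, hc⟩ := h fun n => if (n : ℕ) = i then 1 else 0
  have h2 : ∀ n < Module.finrank κ (Submodule.span κ (R : Set L)),
      coeff n (∑ l, PowerSeries.C (c l) * ρ (f l)) = if n = i then 1 else 0 :=
    fun n hn => hc ⟨n, hn⟩
  refine ⟨_, ?_, h2, ?_⟩
  · refine Submodule.sum_mem _ fun l _ => ?_
    rw [← PowerSeries.smul_eq_C_mul]
    exact Submodule.smul_mem _ _ (Submodule.subset_span ⟨_, hfR l, rfl⟩)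
  · have h3 : (X : PowerSeries L) ^ i ∣ ∑ l, PowerSeries.C (c l) * ρ (f l) := by
      rw [X_pow_dvd_iff]
      intro m hm
      rw [h2 m (by omega), if_neg (by omega)]
    obtain ⟨u, hu⟩ := h3
    have h4 : coeff 0 u = 1 := by
      have := h2 i hi
      rw [hu, if_pos rfl, coeff_X_pow_mul', if_pos le_rfl, Nat.sub_self] at this
      exact this
    have h5 : (X : PowerSeries L) ∣ u - 1 := by
      rw [X_dvd_iff, map_sub, ← coeff_zero_eq_constantCoeff_apply, h4, map_one, sub_self]
    obtain ⟨r, hr⟩ := h5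
    exact ⟨r, by rw [hu, ← hr]; ring⟩

/-- constants have constant Taylor series -/
theorem rho_const (D : Derivation C L L) {ρ : L → PowerSeries L} (hρ0 : ∀ z, coeff 0 (ρ z) = z)
    (hρD : ∀ z (n : ℕ), ((n : L) + 1) * coeff (n + 1) (ρ z) = D (coeff n (ρ z))) {z : L}
    (hz : D z = 0) : ρ z = PowerSeries.C z := by
  have h1 : ∀ n : ℕ, coeff (n + 1) (ρ z) = 0 := by
    intro n
    induction n with
    | zero =>
      have := hρD z 0
      rw [hρ0, hz, Nat.cast_zero, zero_add, one_mul] at this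
      exact this
    | succ n ih =>
      have := hρD z (n + 1)
      rw [ih, map_zero] at this
      refine (mul_eq_zero.1 this).resolve_left ?_
      exact_mod_cast Nat.succ_ne_zero (n + 1)
  ext n
  rcases n with _ | n
  · rw [hρ0, coeff_zero_C]
  · rw [h1, coeff_C, if_neg (Nat.succ_ne_zero n)]

/-- the dimension of the span of `ρ R` over `L` -/
theorem finrank_rows (D : Derivation C L L) (hκ : ∀ z, D z = 0 ↔ z ∈ (algebraMap κ L).range)
    {ρ : L →+* PowerSeries L} (hρ0 : ∀ z, coeff 0 (ρ z) = z)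
    (hρD : ∀ z (n : ℕ), ((n : L) + 1) * coeff (n + 1) (ρ z) = D (coeff n (ρ z)))
    (R : Submodule C L) [Module.Finite C R] :
    Module.Finite L (Submodule.span L (ρ '' (R : Set L))) ∧
    Module.finrank L (Submodule.span L (ρ '' (R : Set L))) =
      Module.finrank κ (Submodule.span κ (R : Set L)) := by
  have := finite_span (κ := κ) R
  obtain ⟨f, hfR, hfs, hfi⟩ := Submodule.exists_fun_fin_finrank_span_eq κ (R : Set L)
  have hspan : Submodule.span L (ρ '' (R : Set L)) = Submodule.span L (Set.range fun l => ρ (f l)) := by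
    apply le_antisymm
    · refine Submodule.span_le.2 ?_
      rintro _ ⟨z, hz, rfl⟩
      have h1 : z ∈ Submodule.span κ (Set.range f) := by
        rw [hfs]; exact Submodule.subset_span hz
      obtain ⟨e, he⟩ := (Submodule.mem_span_range_iff_exists_fun κ).1 h1
      rw [← he, map_sum]
      refine Submodule.sum_mem _ fun l _ => ?_
      rw [Algebra.smul_def, map_mul, rho_const D hρ0 hρD ((hκ _).2 ⟨e l, rfl⟩),
        ← PowerSeries.smul_eq_C_mul]
      exact Submodule.smul_mem _ _ (Submodule.subset_span ⟨l, rfl⟩)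
    · refine Submodule.span_mono ?_
      rintro _ ⟨l, rfl⟩
      exact ⟨_, hfR l, rfl⟩
  have hind : LinearIndependent L fun l => ρ (f l) := by
    rw [Fintype.linearIndependent_iff]
    intro c hc l
    have h1 := coeff_inj D (f := f) (a := fun l n => coeff n (ρ (f l))) (fun c hc h => by
      choose e he using fun l => (hκ (c l)).1 (hc l)
      rw [Fintype.linearIndependent_iff] at hfi
      funext l
      rw [← he l, hfi e (by
        rw [← h]
        refine Finset.sum_congr rfl fun l _ => ?_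
        rw [Algebra.smul_def, he l]) l, map_zero]
      rfl) (fun l => hρ0 _) (fun l n => hρD _ _) (c := c) (fun n _ => by
        have := congrArg (coeff n) hc
        rw [map_sum, map_zero] at this
        rw [← this]
        exact Finset.sum_congr rfl fun l _ => by rw [PowerSeries.smul_eq_C_mul, coeff_C_mul])
    exact congrFun h1 l
  rw [hspan]
  refine ⟨Module.Finite.span_of_finite L (Set.finite_range _), ?_⟩
  rw [finrank_span_eq_card hind, Fintype.card_fin]

theorem finrank_pos_of_ne_bot (R : Submodule C L) [Module.Finite C R] (hR : R ≠ ⊥) :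
    0 < Module.finrank κ (Submodule.span κ (R : Set L)) := by
  have := finite_span (κ := κ) R
  obtain ⟨x, hx, hx0⟩ := (Submodule.ne_bot_iff _).1 hR
  rw [Module.finrank_pos_iff_exists_ne_zero]
  exact ⟨⟨x, Submodule.subset_span hx⟩, fun h => hx0 (congrArg Subtype.val h)⟩

/-- **Superadditivity.** -/
theorem superadd (D : Derivation C L L) (hκ : ∀ z, D z = 0 ↔ z ∈ (algebraMap κ L).range)
    {ρ : L →+* PowerSeries L} (hρ0 : ∀ z, coeff 0 (ρ z) = z)
    (hρD : ∀ z (n : ℕ), ((n : L) + 1) * coeff (n + 1) (ρ z) = D (coeff n (ρ z)))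
    (R₁ R₂ R₃ : Submodule C L) [Module.Finite C R₁] [Module.Finite C R₂] [Module.Finite C R₃]
    (hR : ∀ x ∈ R₁, ∀ y ∈ R₂, x * y ∈ R₃) (hR₁ : R₁ ≠ ⊥) (hR₂ : R₂ ≠ ⊥) :
    Module.finrank κ (Submodule.span κ (R₁ : Set L)) +
      Module.finrank κ (Submodule.span κ (R₂ : Set L)) ≤
      Module.finrank κ (Submodule.span κ (R₃ : Set L)) + 1 := by
  classical
  set N₁ := Module.finrank κ (Submodule.span κ (R₁ : Set L)) with hN₁
  set N₂ := Module.finrank κ (Submodule.span κ (R₂ : Set L)) with hN₂
  obtain ⟨h3f, h3⟩ := finrank_rows (κ := κ) D hκ hρ0 hρD R₃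
  have hN₂pos : 0 < N₂ := finrank_pos_of_ne_bot R₂ hR₂
  have hN₁pos : 0 < N₁ := finrank_pos_of_ne_bot R₁ hR₁
  have hmul : ∀ x ∈ Submodule.span L (ρ '' (R₁ : Set L)), ∀ y ∈ Submodule.span L (ρ '' (R₂ : Set L)),
      x * y ∈ Submodule.span L (ρ '' (R₃ : Set L)) := by
    intro x hx y hy
    have h1 : x * y ∈ Submodule.span L (ρ '' (R₁ : Set L)) * Submodule.span L (ρ '' (R₂ : Set L)) :=
      Submodule.mul_mem_mul hx hy
    rw [Submodule.span_mul_span] at h1
    refine Submodule.span_mono ?_ h1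
    rintro _ ⟨_, ⟨u, hu, rfl⟩, _, ⟨w, hw, rfl⟩, rfl⟩
    exact ⟨u * w, hR u hu w hw, map_mul ρ u w⟩
  -- elements of order `t`
  have hex : ∀ t : Fin (N₁ + N₂ - 1), ∃ G ∈ Submodule.span L (ρ '' (R₃ : Set L)),
      (∀ n < (t : ℕ), coeff n G = 0) ∧ coeff (t : ℕ) G = 1 := by
    intro t
    obtain ⟨i, i', hi, hi', hii⟩ : ∃ i i' : ℕ, i < N₁ ∧ i' < N₂ ∧ i + i' = t := by
      have ht := t.2
      by_cases h : (t : ℕ) < N₁
      · exact ⟨t, 0, h, hN₂pos, rfl⟩
      · exact ⟨N₁ - 1, t - (N₁ - 1), by omega, by omega, by omega⟩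
    obtain ⟨G₁, hG₁, -, r₁, hr₁⟩ := rows_lead (κ := κ) D (fun z hz => (hκ z).1 hz) hρ0 hρD R₁ hi
    obtain ⟨G₂, hG₂, -, r₂, hr₂⟩ := rows_lead (κ := κ) D (fun z hz => (hκ z).1 hz) hρ0 hρD R₂ hi'
    refine ⟨G₁ * G₂, hmul _ hG₁ _ hG₂, ?_, ?_⟩
    · have h1 : (X : PowerSeries L) ^ (t : ℕ) ∣ G₁ * G₂ := by
        rw [hr₁, hr₂, ← hii, pow_add]
        exact ⟨(1 + X * r₁) * (1 + X * r₂), by ring⟩
      exact fun n hn => X_pow_dvd_iff.1 h1 n hn
    · have h1 : G₁ * G₂ = X ^ (t : ℕ) * ((1 + X * r₁) * (1 + X * r₂)) := by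
        rw [hr₁, hr₂, ← hii, pow_add]; ring
      rw [h1, coeff_X_pow_mul', if_pos le_rfl, Nat.sub_self, coeff_zero_eq_constantCoeff_apply]
      simp
  choose G hG hG0 hG1 using hex
  have hind : LinearIndependent L fun t => (⟨G t, hG t⟩ : Submodule.span L (ρ '' (R₃ : Set L))) := by
    refine LinearIndependent.of_comp (Submodule.subtype _) ?_
    rw [Fintype.linearIndependent_iff]
    intro c hc
    by_contra hne
    push Not at hne
    have hex : ∃ t : ℕ, ∃ h : t < N₁ + N₂ - 1, c ⟨t, h⟩ ≠ 0 := by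
      obtain ⟨t, ht⟩ := hne
      exact ⟨t, t.2, ht⟩
    obtain ⟨ht, hct⟩ := Nat.find_spec hex
    have hmin : ∀ s : Fin (N₁ + N₂ - 1), (s : ℕ) < Nat.find hex → c s = 0 := by
      intro s hs
      by_contra h
      exact Nat.find_min hex hs ⟨s.2, h⟩
    have h1 := congrArg (coeff (Nat.find hex)) hc
    rw [map_sum, map_zero, Finset.sum_eq_single (⟨Nat.find hex, ht⟩ : Fin (N₁ + N₂ - 1))] at h1
    · rw [Function.comp_apply, Submodule.subtype_apply, PowerSeries.smul_eq_C_mul, coeff_C_mul,
        hG1 ⟨Nat.find hex, ht⟩, mul_one] at h1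
      exact hct h1
    · intro s _ hs
      rw [Function.comp_apply, Submodule.subtype_apply, PowerSeries.smul_eq_C_mul, coeff_C_mul]
      rcases lt_trichotomy (s : ℕ) (Nat.find hex) with h | h | h
      · rw [hmin s h, zero_mul]
      · exact absurd (Fin.ext h) hs
      · rw [hG0 s _ h, mul_zero]
    · intro h
      exact absurd (Finset.mem_univ _) h
  have := hind.fintype_card_le_finrank
  rw [Fintype.card_fin, h3] at this
  omega

end series

end Pool.Agent.TH978.N4
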